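import Pool.Agent.MP_8be872_ag.H63.SpecE
import Pool.Agent.MP_8be872_ag.H63.LocA

/-! The character of the local cohomology along a cell. -/

namespace Pool.Agent.MP_8be872_ag.H7

open Finset H38 H56 H63 MvPolynomial

section Sums

variable {E O : Type} [Fintype E] [Fintype O]

theorem ex_pos {a : E ⊕ O → ℤ} {μ : E ⊕ O → ℕ} (h : 0 < ws a μ) : ∃ g, μ g ≠ 0 ∧ 0 < a g := by
  by_contra hn
  push Not at hn
  refine absurd h (not_lt.2 (sum_nonpos fun g _ => ?_))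
  by_cases h0 : μ g = 0
  · simp [h0]
  · exact nsmul_nonpos (hn g h0) _

theorem ex_neg {a : E ⊕ O → ℤ} {μ : E ⊕ O → ℕ} (h : ws a μ < 0) : ∃ g, μ g ≠ 0 ∧ a g < 0 := by
  by_contra hn
  push Not at hn
  refine absurd h (not_lt.2 (sum_nonneg fun g _ => ?_))
  by_cases h0 : μ g = 0
  · simp [h0]
  · exact nsmul_nonneg (hn g h0) _

theorem ex_od {μ : E ⊕ O → ℕ} (h : od μ = true) : ∃ g, μ g ≠ 0 := by
  by_contra hn
  push Not at hn
  simp [od, hn] at h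

theorem ws_pos {a : E ⊕ O → ℤ} {μ : E ⊕ O → ℕ} (h : ∀ g, μ g ≠ 0 → 0 < a g) (h' : ∃ g, μ g ≠ 0) :
    0 < ws a μ := by
  obtain ⟨g, hg⟩ := h'
  refine sum_pos' (fun g _ => ?_) ⟨g, mem_univ _, nsmul_pos (h g hg) hg⟩
  by_cases h0 : μ g = 0
  · simp [h0]
  · exact (nsmul_pos (h g h0) h0).le

theorem ws_rho (a b : E ⊕ O → ℤ) (μ : E ⊕ O → ℕ) :
    ws (fun g => 4 * a g - b g) μ = 4 * ws a μ - ws b μ := by
  simp only [ws, mul_sum, ← sum_sub_distrib, nsmul_eq_mul]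
  exact sum_congr rfl fun g _ => by ring

theorem ws_eq_zero {a : E ⊕ O → ℤ} {μ : E ⊕ O → ℕ} (h : ∀ g, μ g ≠ 0 → a g = 0) : ws a μ = 0 :=
  sum_eq_zero fun g _ => by
    by_cases h0 : μ g = 0
    · simp [h0]
    · simp [h g h0]

end Sums

theorem shl_neg {Γ : Type} [AddCommGroup Γ] (L : List Γ) (χ : Γ → ℤ) :
    shl L (fun γ => -χ γ) = fun γ => -shl L χ γ :=
  funext fun g => shl_map (negAddMonoidHom : ℤ →+ ℤ) L χ g

section Core

variable {E O J Γ : Type} [Fintype E] [Fintype O] [Fintype J] [DecidableEq E] [DecidableEq O]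
  [DecidableEq J] [AddCommGroup Γ] {Al : Gn E O J → Prop} {c : Gn E O J → Γ}
  {δ : Gn E O J → Op E O J} {ω : Op E O J} {f : J → MvPolynomial (E ⊕ J) ℂ}

/-- Every monomial of `δ g` has a factor of positive value if `g` has positive value. -/
theorem has_pos (hg : Good Al c δ ω f) (π : Γ →+ ℤ) (g : Gn E O J) (h : 0 < π (c g)) :
    δ g ∈ words (has fun g' => Al g' ∧ 0 < π (c g')) :=
  words_le (fun μ a => by
    obtain ⟨g', h1, h2⟩ := ex_pos (a := fun g => π (c g)) (μ := μ) (by rwa [← map_ws, a.2.1])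
    exact ⟨g', ⟨a.1 g' h1, h2⟩, h1⟩) (hg.dw g)

/-- The quotient by the redundant generators of level zero. -/
theorem chi_of_lin (hg : Good Al c δ ω f) (j₀ : J) {K : Gn E O J → Prop} (hK : ∀ g, K g → Al g)
    (hδ : ∀ g, K g → δ g ∈ words (has K)) (I : Submodule ℂ (Sp (E ⊕ J) (O ⊕ J)))
    (hI : ∀ x ∈ I, Dloc δ ω f ∅ x ∈ I ⊔ mono (has K)) (γ : Γ) :
    Ses (Dloc δ ω f ∅) (ZZ Al c {j₀} ∅ γ) (fun p => ZZ Al c {j₀} ∅ γ p ⊓ (I ⊔ (rel f ⊔ mono (has K))))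
      (rel f ⊔ mono (has K)) (I ⊔ (rel f ⊔ mono (has K))) := by
  refine ⟨hg.isCx_kill (empty_subset _) γ hK hδ, fun p => inf_le_left, fun p x hx =>
    ⟨hg.Dloc_ZZ (empty_subset _) hx.1, ?_⟩, fun p x hx => ⟨fun h => ⟨x, ⟨hx, h⟩, by simp⟩, ?_⟩⟩
  · obtain ⟨a, ha, b, hb, rfl⟩ := Submodule.mem_sup.1 hx.2
    obtain ⟨b₁, h1, b₂, h2, rfl⟩ := Submodule.mem_sup.1 hb
    rw [map_add, map_add]
    refine add_mem (sup_le_sup_left le_sup_right I (hI a ha)) (Submodule.mem_sup_right ?_)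
    exact Submodule.add_mem_sup (hg.Dloc_rel ∅ h1) (hg.Dloc_has ∅ hK hδ h2)
  · rintro ⟨y, hy, h⟩
    simpa using add_mem (Submodule.mem_sup_right h) hy.2

/-- Cochains of positive level are multiples of generators of positive level. -/
theorem ZZ_le (hg : Good Al c δ ω f) (j₀ : J) (π : Γ →+ ℤ) (hT : π (c (tv j₀)) = 0) (γ : Γ)
    (hγ : 0 < π γ) (p : Bool) :
    ZZ Al c {j₀} ∅ γ p ≤ mono (has fun g => Al g ∧ 0 < π (c g)) := by
  refine mono_le fun μ a => ?_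
  obtain ⟨g, h1, h2⟩ := ex_pos (a := fun g => π (c g)) (μ := μ) (by rwa [← map_ws, a.2.1])
  refine ⟨g, ⟨?_, h2⟩, h1⟩
  rcases a.1.1 g h1 with h | ⟨j, rfl, h⟩ | ⟨j, -, rfl⟩
  · exact h
  · rcases a.1.1 _ h with h | ⟨j', h, -⟩ | ⟨j', h3, h⟩
    · exact absurd h (hg.alE j)
    · exact absurd h (by simp)
    · obtain rfl : j = j' := by simpa using h
      obtain rfl : j = j₀ := by simpa using h3
      exact absurd h2 (by rw [hT]; exact lt_irrefl _)
  · exact absurd h2 (by rw [hg.wtE, map_zero]; exact lt_irrefl _)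

theorem core (h1 : OneAt E O J Γ) (h2 : NegRecAt E O J Γ) (h3 : PoleAAt E O J Γ)
    (h4 : PoleAt E O J Γ) (hg : Good Al c δ ω f) (j₀ : J) (A : Finset J) (n : J → E ⊕ J)
    (N : Gn E O J → Prop) (cd : Gn E O J → ℤ) (π l : Γ →+ ℤ) (hj : j₀ ∉ A) (hn : Set.InjOn n A)
    (hf : ∀ j ∈ A, f j = X (n j)) (hN : ∀ g, N g ↔ ∃ j ∈ A, g = .inl (n j))
    (hδ : ∀ g, δ g ∈ words fun μ => ws cd μ = cd g + 1) (hω : ω ∈ words fun μ => ws cd μ = 1)
    (hcd : ∀ j, cd (tv j) = 0 ∧ cd (ev j) = 0 ∧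
      (pol (f j) : Sp (E ⊕ J) (O ⊕ J)) ∈ mono fun μ => ws cd μ = 0)
    (hl0 : ∀ g, Al g → g.isLeft → cd g ≤ 0) (hb : ∀ g, -2 ≤ cd g ∧ cd g ≤ 1)
    (hNA : ∀ g, N g → Al g ∧ 0 < π (c g))
    (hl : ∀ g, Al g → (N g → l (c g) < 0) ∧ (¬ N g → 0 < l (c g))) (hT : π (c (tv j₀)) = 0)
    (M : ℕ) (hacy : ∀ k, M < k → ∀ γ, Acy (Dloc δ ω f ∅) (fun p => ZZ Al c {j₀} ∅ γ p ⊓
      mono fun μ => has N μ ∨ k ≤ cnt (fun g => Al g ∧ ¬ N g ∧ 0 < π (c g)) μ)
      (rel f ⊔ mono (has N)))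
    (e₀ : Γ → ℤ) (he₀ : ∀ γ, HasChi (Dloc δ ω f ∅) (ZZ Al c {j₀} ∅ γ)
      (rel f ⊔ mono (has fun g => Al g ∧ π (c g) ≠ 0)) (e₀ γ))
    (Ls : Bool → List (Gn E O J))
    (hLs : ∀ s, (Ls s).Nodup ∧ ∀ g, g ∈ Ls s ↔ (Al g ∧ π (c g) ≠ 0) ∧ g.isRight = s) :
    ∃ (e : Γ → ℤ) (C : ℤ), (∀ γ, HasChi (Dloc δ ω f A) (ZZ Al c {j₀} A γ) (rel f) (e γ)) ∧
      shl ((Ls false).map c) e = shl ((Ls true).map c) e₀ ∧ ∀ γ, C < π γ → e γ = 0 := by
  classical
  let ρ : Gn E O J → ℤ := fun g => 4 * l (c g) - cd g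
  have hρ : ∀ g, δ g ∈ words fun μ => ws ρ μ < ρ g := fun g =>
    words_le (fun μ a => by
      have e := ws_rho (fun g => l (c g)) cd μ
      rw [← map_ws, a.1.2.1, a.2] at e
      exact e.trans_lt (by simp only [ρ]; omega)) (words_and (hg.dw g) (hδ g))
  have hρω : ω ∈ words fun μ => ws ρ μ < 0 :=
    words_le (fun μ a => by
      have e := ws_rho (fun g => l (c g)) cd μ
      rw [← map_ws, a.1.2.1, a.2, map_zero] at e
      exact e.trans_lt (by decide)) (words_and hg.ow hω)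
  have hpos : ∀ g, Al g → ¬ N g → 0 < ρ g := fun g a b => by
    have := (hl g a).2 b
    have := hb g
    simp only [ρ]
    omega
  let L₁ := (univ.filter fun g => Al g ∧ π (c g) < 0).toList
  let L₂ := (univ.filter fun g => Al g ∧ ¬ N g ∧ 0 < π (c g)).toList
  have m₁ : ∀ g, g ∈ L₁ ↔ Al g ∧ π (c g) < 0 := fun g => by simp [L₁]
  have m₂ : ∀ g, g ∈ L₂ ↔ Al g ∧ ¬ N g ∧ 0 < π (c g) := fun g => by simp [L₂]
  -- the generators of negative level
  have t₁ : Tri Al δ (fun g => Al g ∧ 0 < π (c g)) L₁ ρ := by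
    refine ⟨nodup_toList _, fun g a => a.1, fun g a => has_pos hg π g a.2, fun g a => ?_,
      fun g a b => hpos g a fun h => b (hNA g h), fun g a => ?_⟩
    · rw [m₁] at a
      exact ⟨a.1, fun b => absurd b.2 a.2.not_gt⟩
    · refine words_le (fun μ b => .inr ⟨?_, b.2⟩)
        (words_and (has_pos hg (-π) g (by simpa using ((m₁ g).1 a).2)) (hρ g))
      obtain ⟨g', h, h'⟩ := b.1
      exact ⟨g', (m₁ g').2 ⟨h.1, by simpa using h.2⟩, h'⟩
  have k₁ : (fun g => (Al g ∧ 0 < π (c g)) ∨ g ∈ L₁) = fun g => Al g ∧ π (c g) ≠ 0 := by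
    funext g
    rw [m₁, ← and_or_left, ne_iff_gt_or_lt]
  obtain ⟨e₁, he₁, s₁, -⟩ := h1 Al c δ ω f hg j₀ _ L₁ ρ t₁ (-π)
    (fun g a _ => by simpa using ((m₁ g).1 a).2)
    (fun γ a p => (ZZ_le hg j₀ π hT γ (by simpa using a) p).trans le_sup_right) e₀ (k₁ ▸ he₀)
  -- the generators of positive level
  have hNN : ∀ μ, has (fun g => Al g ∧ 0 < (-l) (c g)) μ → has N μ := fun μ ⟨g, a, b⟩ =>
    ⟨g, of_not_not fun h => absurd ((hl g a.1).2 h) (by simpa using a.2.le), b⟩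
  have t₂ : Tri Al δ N L₂ ρ := by
    refine ⟨nodup_toList _, fun g a => (hNA g a).1, fun g a => words_le hNN
      (has_pos hg (-l) g (by simpa using (hl g (hNA g a).1).1 a)),
      fun g a => ⟨((m₂ g).1 a).1, ((m₂ g).1 a).2.1⟩, hpos, fun g a => ?_⟩
    refine words_le (fun μ b => ?_) (words_and (has_pos hg π g ((m₂ g).1 a).2.2) (hρ g))
    obtain ⟨g', h, h'⟩ := b.1
    by_cases hg' : N g'
    · exact .inl ⟨g', hg', h'⟩
    · exact .inr ⟨⟨g', (m₂ g').2 ⟨h.1, hg', h.2⟩, h'⟩, b.2⟩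
  have hωN : ω ∈ words (has N) := by
    refine words_le (fun μ a => of_not_not fun h => ?_) hg.ow
    have := ws_pos (a := fun g => l (c g)) (μ := μ)
      (fun g b => (hl g (a.1 g b)).2 fun h' => h ⟨g, h', b⟩) (ex_od a.2.2)
    rw [← map_ws, a.2.1, map_zero] at this
    exact lt_irrefl _ this
  have k₂ : (fun g => N g ∨ g ∈ L₂) = fun g => Al g ∧ 0 < π (c g) := by
    funext g
    rw [m₂]
    refine propext ⟨fun a => a.elim (hNA g) fun a => ⟨a.1, a.2.2⟩, fun a => ?_⟩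
    by_cases h : N g
    · exact .inl h
    · exact .inr ⟨a.1, h, a.2⟩
  have k₃ : (· ∈ L₂) = fun g => Al g ∧ ¬ N g ∧ 0 < π (c g) := funext fun g => propext (m₂ g)
  obtain ⟨e₂, C, he₂, s₂, a₂⟩ := h2 Al c δ ω f hg j₀ N L₂ ρ t₂ hωN (M + 1)
    (fun k hk => k₃ ▸ hacy k hk) π 0 e₁ (k₂ ▸ he₁)
    (fun γ a => k₂ ▸ acy_of_le fun p => (ZZ_le hg j₀ π hT γ a p).trans le_sup_right)
  -- the conormal directions
  obtain ⟨e₃, he₃, s₃, z₃⟩ := h4 Al c δ ω f hg j₀ A n N ρ hj hn hf hN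
    (fun g a => ⟨(hNA g a).1, by
      have := (hl g (hNA g a).1).1 a
      have := hb g
      simp only [ρ]
      omega⟩) hpos hρ hρω
    (h3 Al c δ ω f hg j₀ A n cd hj hn hf hδ hω hcd hl0) π C e₂ (fun g a => (hNA g a).2) he₂ a₂
  refine ⟨e₃, C, he₃, ?_, z₃⟩
  have nA : (A.toList.map fun j => (.inl (n j) : Gn E O J)).Nodup :=
    (nodup_toList A).map_on fun j a j' a' h =>
      hn (mem_toList.1 a) (mem_toList.1 a') (Sum.inl_injective h)
  have mA : ∀ g, g ∈ (A.toList.map fun j => (.inl (n j) : Gn E O J)) ↔ N g := fun g => by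
    simp only [hN, List.mem_map, mem_toList, eq_comm]
  have lN : ∀ g, N g → g.isRight = false := fun g a => by
    obtain ⟨j, -, rfl⟩ := (hN g).1 a
    rfl
  have p₀ : (Ls false).Perm (L₁.filter Sum.isLeft ++ (L₂.filter Sum.isLeft ++
      A.toList.map fun j => (.inl (n j) : Gn E O J))) := by
    refine (List.perm_ext_iff_of_nodup (hLs _).1 ?_).2 fun g => ?_
    · refine (t₁.nodup.filter _).append ((t₂.nodup.filter _).append nA fun g a b => ?_)
        fun g a b => ?_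
      · exact ((m₂ g).1 (List.mem_filter.1 a).1).2.1 ((mA g).1 b)
      · refine ((m₁ g).1 (List.mem_filter.1 a).1).2.not_gt ((List.mem_append.1 b).elim
          (fun b => ((m₂ g).1 (List.mem_filter.1 b).1).2.2) fun b => (hNA g ((mA g).1 b)).2)
    · simp only [(hLs _).2, List.mem_append, List.mem_filter, m₁, m₂, mA]
      have := hNA g
      have := lN g
      rcases g with g | g <;> simp only [Sum.isLeft_inl, Sum.isRight_inl, Sum.isLeft_inr,
        Sum.isRight_inr, ne_iff_lt_or_gt] at * <;> tauto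
  have p₁ : (Ls true).Perm (L₂.filter Sum.isRight ++ L₁.filter Sum.isRight) := by
    refine (List.perm_ext_iff_of_nodup (hLs _).1 ?_).2 fun g => ?_
    · exact (t₂.nodup.filter _).append (t₁.nodup.filter _) fun g a b =>
        ((m₁ g).1 (List.mem_filter.1 b).1).2.not_gt ((m₂ g).1 (List.mem_filter.1 a).1).2.2
    · simp only [(hLs _).2, List.mem_append, List.mem_filter, m₁, m₂]
      have := lN g
      rcases g with g | g <;> simp only [Sum.isRight_inl, Sum.isRight_inr, ne_iff_lt_or_gt] at * <;>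
        tauto
  rw [shl_perm (p₀.map c), shl_perm (p₁.map c), List.map_append, List.map_append, List.map_append,
    shl_append, shl_append, shl_append, List.map_map, ← s₁, shl_comm _ _ e₁, ← s₂, ← s₃]
  rfl

end Core

variable {Q : Quiv} {w v D : Fin Q.n → ℕ} {J : Type}

/-- The generators without Čech variables. -/
def io : Ix Q w v D Empty ⊕ Ix Q w v D Empty → Ix Q w v D J ⊕ Ix Q w v D J :=
  Sum.map (Sum.map id Empty.elim) (Sum.map id Empty.elim)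

theorem io_inj : Function.Injective (io (Q := Q) (w := w) (v := v) (D := D) (J := J)) :=
  Function.Injective.sumMap (Function.injective_id.sumMap fun a => a.elim)
    (Function.injective_id.sumMap fun a => a.elim)

theorem ofM_io {A : Type} (M : Kd Q → Nb Q w v D → Nb Q w v D → A) (t e : J → A)
    (t' e' : Empty → A) (g : Ix Q w v D Empty ⊕ Ix Q w v D Empty) :
    ofM M t e (io g) = ofM M t' e' g := by
  rcases g with (⟨τ, p, q⟩ | j) | (⟨τ, p, q⟩ | j)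
  exacts [rfl, j.elim, rfl, j.elim]

theorem io_surj {M : Kd Q → Nb Q w v D → Nb Q w v D → Prop} {g : Ix Q w v D J ⊕ Ix Q w v D J}
    (h : ofM M ⊥ ⊥ g) : ∃ g', io g' = g := by
  rcases g with (a | j) | (a | j)
  exacts [⟨.inl (.inl a), rfl⟩, h.elim, ⟨.inr (.inl a), rfl⟩, h.elim]

theorem io_right (g : Ix Q w v D Empty ⊕ Ix Q w v D Empty) :
    (io (J := J) g).isRight = g.isRight := by
  cases g <;> rfl

theorem cdG_bd (g : Ix Q w v D J ⊕ Ix Q w v D J) :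
    (-2 ≤ cdG g ∧ cdG g ≤ 1) ∧ (g.isLeft → cdG g ≤ 0) := by
  rcases g with (⟨_ | _ | _, p, q⟩ | j) | (⟨_ | _ | _, p, q⟩ | j) <;> simp [cdG, ofM, kdeg]

theorem cdG_zero {g : Ix Q w v D J ⊕ Ix Q w v D J} (h : kind (fun k => kdeg k = 0) g) :
    cdG g = 0 := by
  rcases g with (⟨τ, p, q⟩ | j) | (⟨τ, p, q⟩ | j)
  exacts [h, rfl, h, rfl]

theorem cellChi : OneStmt → NegRecStmt → PoleAStmt → PoleStmt → SlFStmt → SlWStmt → NegAcyStmt →
    Fx0Stmt → Fx1Stmt → Fx2Stmt → CellChiStmt := by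
  intro h1 h2 h3 h4 hF hW hA f0 f1 f2 Q w v D J _ _ σ d lab m P φ₀ f φ j₀ e A n hc hs hj hn hf hN hfix
  classical
  obtain ⟨g1, -, g3, g4, -⟩ := hF Q w v D J σ d lab m hc.isLab hc.vert hc.const
  obtain ⟨w1, w2, w3, ⟨l, w4⟩, -⟩ := hW Q w v D J σ d lab hc.isLab hc.vert
  have hg := g1 φ f hc.hom
  have h0 : co 0 φ₀ = 0 := (cuts_wt hc.path.2.2 fun h => hc.path.2.1
    (rename_injective _ (Option.some_injective _) (h.trans (map_zero _).symm))).1
  have k₀ : lvNe d lab = fun g : Ix Q w v D J ⊕ Ix Q w v D J =>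
      AlS lab g ∧ co 0 (wt (xs σ d lab) φ g) ≠ 0 :=
    funext fun g => propext (and_congr_right fun a => by rw [w1 φ g a])
  have k₁ : (fun g : Ix Q w v D J ⊕ Ix Q w v D J => AlS lab g ∧ ¬ isN d lab g ∧ 0 < lvG d lab g) =
      fun g => AlS lab g ∧ ¬ isN d lab g ∧ 0 < co 0 (wt (xs σ d lab) φ g) :=
    funext fun g => propext (and_congr_right fun a => by rw [w1 φ g a])
  have hK : ∀ g : Ix Q w v D J ⊕ Ix Q w v D J, lvNe d lab g →
      dS lab g ∈ words (has (lvNe d lab)) := fun g a => by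
    rw [k₀] at a ⊢
    rcases lt_or_gt_of_ne a.2 with b | b
    · refine words_le (fun μ ⟨g', h, h'⟩ => ⟨g', ⟨h.1, ?_⟩, h'⟩)
        (has_pos hg (-co 0) g (by simpa using b))
      exact fun h'' => absurd h.2 (by simp [h''])
    · exact words_le (fun μ ⟨g', h, h'⟩ => ⟨g', ⟨h.1, h.2.ne'⟩, h'⟩) (has_pos hg (co 0) g b)
  have he₀ : ∀ γ, HasChi (Dloc (dS lab) (omS lab m) f ∅)
      (ZZ (AlS lab) (wt (xs σ d lab) φ) {j₀} ∅ γ) (rel f ⊔ mono (has (lvNe d lab)))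
      (-chi Q w v (fun i a => e i a) (emb (Fold P)) φ₀ γ) := fun γ => by
    obtain ⟨a1, a2⟩ := f1 Q w v D J σ d lab m P φ₀ f φ j₀ hc
    have s := chi_of_lin hg j₀ (fun g a => a.1) hK _ a1 γ
    obtain ⟨b1, b2⟩ := f0 Q w v _ _ φ₀ (incr_of_mem hs.mem) hc.path.2.2 γ
    have := s.chi_mid (a2 γ).hasChi
      (f2 Q w v D J σ d lab m P φ₀ f φ j₀ e hc hs γ _ s.cxQ b1 (b2 (hfix.sum h0 γ).1))
    rwa [zero_add] at this
  let Ls : Bool → List (Ix Q w v D J ⊕ Ix Q w v D J) := fun s =>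
    (univ.filter fun g : Ix Q w v D Empty ⊕ Ix Q w v D Empty =>
      lvNe d lab g ∧ g.isRight = s).toList.map io
  have hio : ∀ g : Ix Q w v D Empty ⊕ Ix Q w v D Empty, lvNe d lab (io (J := J) g) ↔ lvNe d lab g :=
    fun g => by rw [lvNe, lvNe, AlS, AlS, lvG, lvG, ofM_io _ _ _ ⊥ ⊥, ofM_io _ _ _ 0 0]
  have hL : ∀ s, movL w σ d lab s = (Ls s).map (wt (xs σ d lab) φ) := fun s => by
    rw [movL, List.map_map]
    exact List.map_congr_left fun g _ => by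
      rcases g with (⟨τ, p, q⟩ | j) | (⟨τ, p, q⟩ | j)
      exacts [rfl, j.elim, rfl, j.elim]
  obtain ⟨e₃, C, r1, r2, r3⟩ := core (h1 _ _ _ _) (h2 _ _ _ _) (h3 _ _ _ _) (h4 _ _ _ _) hg j₀ A n
    (isN d lab) cdG (co 0) l hj hn hf hN g3 g4
    (fun j => ⟨rfl, rfl, mono_le (fun μ a => ws_eq_zero fun g b => cdG_zero (a.1 g b).2)
      (hc.hom j)⟩) (fun g _ => (cdG_bd g).2) (fun g => (cdG_bd g).1)
    (fun g a => ⟨w2 g a, by
      have b := w2 g a
      rw [w1 φ g b]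
      rcases g with (⟨τ, p, q⟩ | j) | (⟨τ, p, q⟩ | j)
      · obtain ⟨h, -⟩ := a
        obtain rfl := Sum.inl_injective h
        exact w3 p q b
      · exact a.elim
      · exact absurd a.1 (by simp)
      · exact a.elim⟩) (w4 φ)
    (by rw [← neg_eq_zero, ← map_neg, ← h0, ← hc.wj]; exact congrArg _ (neg_neg _)) _
    (k₁ ▸ hA Q w v D J σ d lab m P φ₀ f φ j₀ hc) _ (k₀ ▸ he₀) Ls (fun s =>
      ⟨(nodup_toList _).map io_inj, fun g => by
        rw [← congrFun k₀ g]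
        refine ⟨fun a => ?_, fun a => ?_⟩
        · obtain ⟨g', b, rfl⟩ := List.mem_map.1 a
          rw [hio, io_right]
          exact (mem_filter.1 (mem_toList.1 b)).2
        · obtain ⟨g', rfl⟩ := io_surj a.1.1
          rw [hio, io_right] at a
          exact List.mem_map_of_mem (mem_toList.2 (mem_filter.2 ⟨mem_univ _, a⟩))⟩)
  refine ⟨fun γ => -e₃ γ, C, fun γ => by simpa using r1 γ, ?_, fun γ a => by simp [r3 γ a]⟩
  rw [hL, hL, shl_neg, r2, shl_neg]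
  simp

end Pool.Agent.MP_8be872_ag.H7
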